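import Pool.Agent.helper34.MO.SpecB

/-! Row mo:S3 (MP_0631c5_co): the type (b) identity: an ear hung on an edge of the apex. -/

set_option autoImplicit false

open Complex Finset

namespace Pool.Agent.MO

/-- a symmetric matrix on the indices 0, 1 -/
noncomputable def S3_M (a b m : ℂ) : ℕ → ℕ → ℂ
  | 0, 0 => a
  | 1, 1 => b
  | _, _ => m

theorem S3_det2 (F : ℕ → ℕ → ℂ) : detS F {0, 1} = F 0 0 * F 1 1 - F 0 1 * F 1 0 := by
  unfold detS
  let e : Fin 2 → ({0, 1} : Finset ℕ) := ![⟨0, by simp⟩, ⟨1, by simp⟩]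
  have he : Function.Bijective e := by
    constructor
    · intro i j h
      fin_cases i <;> fin_cases j <;> simp [e] at h ⊢
    · rintro ⟨x, hx⟩
      simp only [Finset.mem_insert, Finset.mem_singleton] at hx
      rcases hx with rfl | rfl
      · exact ⟨0, rfl⟩
      · exact ⟨1, rfl⟩
  rw [← Matrix.det_submatrix_equiv_self (Equiv.ofBijective e he), Matrix.det_fin_two]
  rfl

/-- the structure on a, b, c, u -/
noncomputable abbrev S3_G (A B m : ℂ) (C U : ℝ) : ℕ → ℕ → ℂ :=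
  G5 A B C U 1 m (-I) (-I) (-I) (-I) 0 0

/-- a, b with c eliminated -/
noncomputable abbrev S3_F (A B m : ℂ) (C : ℝ) : ℕ → ℕ → ℂ :=
  S3_M (A + 1 / C) (B + 1 / C) (m + 1 / C)

noncomputable abbrev S3_K (A B m : ℂ) (C : ℝ) : ℕ → ℕ → ℂ :=
  S3_M (A + C + 2 * I) B (m + I)

theorem S3_acc (hACG : ACG_stmt) (hPHE : PHE_stmt) {A B m : ℂ} {C U : ℝ} (h : Acc2 A B m)
    (hC : 0 < C) (hU : 0 < U) : AccS (S3_G A B m C U) {0, 1, 2, 3} := by
  have h1 := hACG A B m 0 0 0 C U 1 (-I) (-I) (-I) (-I) 0 0 h ⟨by simp, by simp, by simp⟩ hC hU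
    one_pos (by simp) (by simp) (by simp) (by simp) (by simp) (by simp)
  rw [add_zero, add_zero, zero_add, ofReal_one] at h1
  exact hPHE.2.2.2.2 _ _ _ (by decide) h1

theorem S3_accF (hA2P : A2P_stmt) {A B m : ℂ} {C : ℝ} (h : Acc2 A B m) (hC : 0 < C) :
    AccS (S3_F A B m C) {0, 1} := by
  rw [hA2P.2 _ 0 1 (by norm_num) rfl]
  have e : (1 / (C : ℂ)) = ((1 / C : ℝ) : ℂ) := by push_cast; rfl
  have h1 : Psd2 (1 / (C : ℂ)) (1 / (C : ℂ)) (1 / (C : ℂ)) := by
    rw [e]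
    refine ⟨?_, ?_, ?_⟩
    · rw [ofReal_re]; positivity
    · rw [ofReal_re]; positivity
    · rw [ofReal_re]; exact le_of_eq (by ring)
  exact hA2P.1 A B m _ _ _ h h1

theorem S3_acc2K (hA2P : A2P_stmt) {A B m : ℂ} {C : ℝ} (h : Acc2 A B m) (hC : 0 < C) :
    Acc2 (A + C + 2 * I) B (m + I) := by
  have h1 : Psd2 ((C : ℂ) + 2 * I) 0 I := by
    refine ⟨?_, ?_, ?_⟩
    · simp
      exact hC.le
    · simp
    · simp
  have := hA2P.1 A B m _ _ _ h h1
  rw [add_zero, ← add_assoc] at this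
  exact this

theorem S3_accK (hA2P : A2P_stmt) {A B m : ℂ} {C : ℝ} (h : Acc2 A B m) (hC : 0 < C) :
    AccS (S3_K A B m C) {0, 1} := by
  rw [hA2P.2 _ 0 1 (by norm_num) rfl]
  exact S3_acc2K hA2P h hC

theorem S3_arg {x : ℝ} (hx : 0 < x) : arg (x : ℂ) = 0 := arg_ofReal_of_nonneg hx.le

/-- elimination of c and u -/
theorem S3_elim (hPHS : PHS_stmt) (hPHE : PHE_stmt) (hACG : ACG_stmt) {A B m : ℂ} {C U : ℝ}
    (h : Acc2 A B m) (hC : 0 < C) (hU : 0 < U) :
    phS (S3_G A B m C U) {0, 1, 2, 3} =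
      phS (mix (S3_F A B m C) (S3_K A B m C) (1 / (U * C + 1))) {0, 1} ∧
    detS (S3_G A B m C U) {0, 1, 2, 3} = (U * C + 1) *
      detS (mix (S3_F A B m C) (S3_K A B m C) (1 / (U * C + 1))) {0, 1} := by
  have hC0 : (C : ℂ) ≠ 0 := ofReal_ne_zero.2 hC.ne'
  have hD : (U * C + 1 : ℝ) ≠ 0 := by positivity
  have hD0 : (U : ℂ) * C + 1 ≠ 0 := by
    have : ((U * C + 1 : ℝ) : ℂ) ≠ 0 := ofReal_ne_zero.2 hD
    push_cast at this
    exact this
  have e1 : ({0, 1, 2, 3} : Finset ℕ) = insert 2 {0, 1, 3} := by decide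
  have e2 : ({0, 1, 3} : Finset ℕ) = insert 3 {0, 1} := by decide
  have hacc := S3_acc hACG hPHE h hC hU
  rw [e1] at hacc
  obtain ⟨-, h2, h3, h4⟩ := hPHS _ _ 2 (by decide) hacc
  rw [e2] at h2
  obtain ⟨-, -, h7, h8⟩ := hPHS _ _ 3 (by decide) h2
  have g22 : S3_G A B m C U 2 2 = ((C : ℝ) : ℂ) := rfl
  have g33 : sch (S3_G A B m C U) 2 3 3 = ((U + 1 / C : ℝ) : ℂ) := by
    simp only [sch, G5]
    push_cast
    have : -I * -I = -1 := by rw [neg_mul_neg, I_mul_I]
    rw [this]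
    ring
  have h9 := hPHE.2.2.1 (sch (sch (S3_G A B m C U) 2) 3)
    (mix (S3_F A B m C) (S3_K A B m C) (1 / (U * C + 1))) {0, 1} (by
      have h00 : (-I + 1 / (C : ℂ)) * (-I + 1 / C) = -1 - 2 * I / C + 1 / C ^ 2 := by
        have : I ^ 2 = -1 := I_sq
        linear_combination this
      have hs : ((1 / (U * C + 1) : ℝ) : ℂ) = 1 / ((U : ℂ) * C + 1) := by push_cast; rfl
      have hUC : (U : ℂ) + 1 / C = (U * C + 1) / C := by field_simp
      have hII : -I * -I = -1 := by rw [neg_mul_neg, I_mul_I]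
      intro i hi j hj
      simp only [Finset.mem_insert, Finset.mem_singleton] at hi hj
      rcases hi with rfl | rfl <;> rcases hj with rfl | rfl
      · simp only [sch, G5, mix, S3_M, hs, hII]
        have : (-I - -1 / (C : ℂ)) * (-I - -1 / C) = -1 - 2 * I / C + 1 / C ^ 2 := by
          rw [← h00]; ring
        rw [this]
        have h5 : (U : ℂ) - -1 / C = (U * C + 1) / C := by rw [← hUC]; ring
        rw [h5]
        field_simp
        ring
      · simp only [sch, G5, mix, S3_M, hs, hII]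
        have h5 : (U : ℂ) - -1 / C = (U * C + 1) / C := by rw [← hUC]; ring
        rw [h5]
        field_simp
        ring
      · simp only [sch, G5, mix, S3_M, hs, hII]
        have h5 : (U : ℂ) - -1 / C = (U * C + 1) / C := by rw [← hUC]; ring
        rw [h5]
        field_simp
        ring
      · simp only [sch, G5, mix, S3_M, hs, hII]
        have h5 : (U : ℂ) - -1 / C = (U * C + 1) / C := by rw [← hUC]; ring
        rw [h5]
        field_simp
        ring)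
  have hp : 0 < U + 1 / C := by positivity
  constructor
  · rw [e1, h3, g22, S3_arg hC, zero_add, e2, h7, g33, S3_arg hp, zero_add, h9.1]
  · rw [e1, h4, g22, e2, h8, g33, h9.2.1]
    push_cast
    field_simp

/-- elimination of c -/
theorem S3_elimc (hPHS : PHS_stmt) (hPHE : PHE_stmt) (hACG : ACG_stmt) {A B m : ℂ} {C U : ℝ}
    (h : Acc2 A B m) (hC : 0 < C) (hU : 0 < U) :
    phS (S3_G A B m C U) {0, 1, 2} = phS (S3_F A B m C) {0, 1} ∧
    detS (S3_G A B m C U) {0, 1, 2} = C * detS (S3_F A B m C) {0, 1} := by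
  have hC0 : (C : ℂ) ≠ 0 := ofReal_ne_zero.2 hC.ne'
  have e1 : ({0, 1, 2} : Finset ℕ) = insert 2 {0, 1} := by decide
  have hacc := hPHE.2.2.2.2 _ {0, 1, 2} _ (by decide) (S3_acc hACG hPHE h hC hU)
  rw [e1] at hacc
  obtain ⟨-, -, h3, h4⟩ := hPHS _ _ 2 (by decide) hacc
  have g22 : S3_G A B m C U 2 2 = ((C : ℝ) : ℂ) := rfl
  have h9 := hPHE.2.2.1 (sch (S3_G A B m C U) 2) (S3_F A B m C) {0, 1} (by
      have hII : -I * -I = -1 := by rw [neg_mul_neg, I_mul_I]
      intro i hi j hj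
      simp only [Finset.mem_insert, Finset.mem_singleton] at hi hj
      rcases hi with rfl | rfl <;> rcases hj with rfl | rfl <;>
        · simp only [sch, G5, S3_M, hII]
          ring)
  constructor
  · rw [e1, h3, g22, S3_arg hC, zero_add, h9.1]
  · rw [e1, h4, g22, h9.2.1]

/-- the determinant is affine on the segment -/
theorem S3_aff {A B m : ℂ} {C : ℝ} (hC : 0 < C) (s : ℝ) :
    detS (mix (S3_F A B m C) (S3_K A B m C) s) {0, 1} =
      (1 - (s : ℂ)) * detS (S3_F A B m C) {0, 1} + (s : ℂ) * detS (S3_K A B m C) {0, 1} := by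
  have hC0 : (C : ℂ) ≠ 0 := ofReal_ne_zero.2 hC.ne'
  rw [S3_det2, S3_det2, S3_det2]
  simp only [mix, S3_M]
  have hI : I ^ 2 = -1 := I_sq
  field_simp
  linear_combination ((s : ℂ) * (1 - s) * C ^ 2) * hI

theorem S3_re (hPHP : PHP_stmt) (hPHS : PHS_stmt) (hPHE : PHE_stmt) (hACG : ACG_stmt) {A B m : ℂ}
    {C : ℝ} (h : Acc2 A B m) (hC : 0 < C) :
    0 ≤ (detS (S3_K A B m C) {0, 1} / detS (S3_F A B m C) {0, 1}).re := by
  have hC0 : (C : ℂ) ≠ 0 := ofReal_ne_zero.2 hC.ne'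
  have key : ∀ U : ℝ, 0 < U →
      0 < (U + detS (S3_K A B m C) {0, 1} / detS (S3_F A B m C) {0, 1} / C).re := by
    intro U hU
    have e1 : ({0, 1, 2, 3} : Finset ℕ) = insert 3 {0, 1, 2} := by decide
    have hacc := S3_acc hACG hPHE h hC hU
    rw [e1] at hacc
    obtain ⟨h1, h2, -⟩ := hPHP _ _ 3 (by decide) hacc
    rw [← e1, (S3_elim hPHS hPHE hACG h hC hU).2, (S3_elimc hPHS hPHE hACG h hC hU).2,
      S3_aff hC] at h2
    rw [(S3_elimc hPHS hPHE hACG h hC hU).2] at h1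
    have hF : detS (S3_F A B m C) {0, 1} ≠ 0 := right_ne_zero_of_mul h1
    have hD : (U * C + 1 : ℝ) ≠ 0 := by positivity
    have hD0 : (U : ℂ) * C + 1 ≠ 0 := by
      have : ((U * C + 1 : ℝ) : ℂ) ≠ 0 := ofReal_ne_zero.2 hD
      push_cast at this
      exact this
    have e2 : (U : ℂ) + detS (S3_K A B m C) {0, 1} / detS (S3_F A B m C) {0, 1} / C =
        ((U : ℂ) * C + 1) * ((1 - ((1 / (U * C + 1) : ℝ) : ℂ)) * detS (S3_F A B m C) {0, 1} +
          ((1 / (U * C + 1) : ℝ) : ℂ) * detS (S3_K A B m C) {0, 1}) /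
          (C * detS (S3_F A B m C) {0, 1}) := by
      push_cast
      field_simp
      ring
    rw [e2]
    exact h2
  set ζ : ℂ := detS (S3_K A B m C) {0, 1} / detS (S3_F A B m C) {0, 1} with hζ
  have h3 : (ζ / C).re = ζ.re / C := div_ofReal_re ζ C
  have h4 : 0 ≤ ζ.re / C := by
    apply le_of_forall_pos_le_add
    intro ε hε
    have h5 := key ε hε
    rw [add_re, ofReal_re, h3] at h5
    linarith
  have h6 : ζ.re = ζ.re / C * C := by field_simp
  rw [h6]
  positivity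

theorem S3_one (hSEG : SEG_stmt) (hPHP : PHP_stmt) (hPHS : PHS_stmt) (hPHE : PHE_stmt)
    (hEV : EV_stmt) (hACG : ACG_stmt) (hA2P : A2P_stmt) (hG2M : G2M_stmt) {A B m : ℂ} {C U : ℝ}
    (h : Acc2 A B m) (hC : 0 < C) (hU : 0 < U) :
    (ph2 (A + C + 2 * I) B (m + I) ≤ phS (S3_G A B m C U) {0, 1, 2, 3} + Real.pi / 2) ∧
    ∀ f : ℝ, Good2 f A B (m + I) → 0 ≤ f + ph3 A B C m (-I) (-I) →
      0 ≤ f + phS (S3_G A B m C U) {0, 1, 2, 3} := by
  obtain ⟨s1, s2⟩ := hSEG (S3_F A B m C) (S3_K A B m C) {0, 1} (S3_accF hA2P h hC)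
    (S3_accK hA2P h hC) (fun s _ => S3_aff hC s)
  have hs : (1 / (U * C + 1) : ℝ) ∈ Set.Icc (0 : ℝ) 1 := by
    have : 0 < U * C := by positivity
    constructor
    · positivity
    · rw [div_le_one (by positivity)]
      linarith
  have e1 := (S3_elim hPHS hPHE hACG h hC hU).1
  have e2 := hEV.1 (S3_K A B m C) 0 1 (by norm_num) rfl (S3_accK hA2P h hC)
  have e3 : ph2 (S3_K A B m C 0 0) (S3_K A B m C 1 1) (S3_K A B m C 0 1) =
    ph2 (A + C + 2 * I) B (m + I) := rfl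
  rw [e3] at e2
  constructor
  · rw [e1, ← e2]
    exact s2 (S3_re hPHP hPHS hPHE hACG h hC) _ hs
  · intro f hf1 hf2
    rw [e1]
    have h1 := s1 _ hs
    have hacc := hPHE.2.2.2.2 _ {0, 1, 2} _ (by decide) (S3_acc hACG hPHE h hC hU)
    have h2 := hEV.2 (S3_G A B m C U) 0 1 2 (by norm_num) (by norm_num) (by norm_num) rfl rfl rfl
      hacc
    have e4 : ph3 (S3_G A B m C U 0 0) (S3_G A B m C U 1 1) (S3_G A B m C U 2 2)
      (S3_G A B m C U 0 1) (S3_G A B m C U 0 2) (S3_G A B m C U 1 2) =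
        ph3 A B C m (-I) (-I) := rfl
    rw [e4, (S3_elimc hPHS hPHE hACG h hC hU).1] at h2
    have hI : Acc2 A B (m + I) := by
      have h5 : Psd2 0 0 I := ⟨by simp, by simp, by simp⟩
      have := hA2P.1 A B m _ _ _ h h5
      rw [add_zero, add_zero] at this
      exact this
    have h3 := (hG2M f A B (m + I) (C + 2 * I) 0 hI hf1 (by simp; exact hC.le) (by simp) (by simp)
      (by simp)).2 0 0 le_rfl le_rfl
    rw [ofReal_zero, add_zero, add_zero, add_zero, ← add_assoc, ← e2] at h3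
    rw [← h2] at hf2
    rcases le_total (phS (S3_F A B m C) {0, 1}) (phS (S3_K A B m C) {0, 1}) with h6 | h6
    · rw [min_eq_left h6] at h1
      linarith
    · rw [min_eq_right h6] at h1
      linarith

/-- the mirror image -/
def S3_g (x : ℕ) : ℕ := if x = 0 then 1 else if x = 1 then 0 else if x = 4 then 3 else x

theorem S3_mir (hPHE : PHE_stmt) (A B m : ℂ) (C U : ℝ) :
    phS (G5 A B C 1 U m (-I) (-I) 0 0 (-I) (-I)) {0, 1, 2, 4} =
      phS (S3_G B A m C U) {0, 1, 2, 3} := by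
  have h1 := hPHE.2.2.2.1 (S3_G B A m C U) {0, 1, 2, 4} S3_g (by
    intro x hx y hy hxy
    simp only [Finset.coe_insert, Finset.coe_singleton, Set.mem_insert_iff,
      Set.mem_singleton_iff] at hx hy
    rcases hx with rfl | rfl | rfl | rfl <;> rcases hy with rfl | rfl | rfl | rfl <;>
      simp [S3_g] at hxy ⊢)
  have h2 : ({0, 1, 2, 4} : Finset ℕ).image S3_g = {0, 1, 2, 3} := by decide
  rw [h2] at h1
  rw [← h1.1]
  apply (hPHE.2.2.1 _ _ _ _).1
  intro i hi j hj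
  simp only [Finset.mem_insert, Finset.mem_singleton] at hi hj
  rcases hi with rfl | rfl | rfl | rfl <;> rcases hj with rfl | rfl | rfl | rfl <;> rfl

theorem S3 (hSEG : SEG_stmt) (hPHP : PHP_stmt) (hPHS : PHS_stmt) (hPHE : PHE_stmt) (hEV : EV_stmt)
    (hACG : ACG_stmt) (hA2P : A2P_stmt) (hEX2 : EX2_stmt) (hG2M : G2M_stmt) : S3_stmt := by
  intro f A B m C U h hC hU
  have h' : Acc2 B A m := ⟨h.2.1, h.1, by rw [mul_comm]; exact h.2.2⟩
  obtain ⟨a1, a2⟩ := S3_one hSEG hPHP hPHS hPHE hEV hACG hA2P hG2M h hC hU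
  obtain ⟨b1, b2⟩ := S3_one hSEG hPHP hPHS hPHE hEV hACG hA2P hG2M h' hC hU
  refine ⟨a1, ?_, ?_⟩
  · rw [S3_mir hPHE]
    rw [← (hEX2 _ _ _ (S3_acc2K hA2P h' hC)).1]
    exact b1
  · intro hf1 hf2
    refine ⟨a2 f hf1 hf2, ?_⟩
    rw [S3_mir hPHE]
    apply b2 f
    · intro p q hp hq
      have h5 := hf1 q p hq hp
      have h6 : Psd2 q p I := by
        refine ⟨?_, ?_, ?_⟩
        · rw [ofReal_re]; exact hq
        · rw [ofReal_re]; exact hp
        · rw [ofReal_re, ofReal_re, I_re]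
          simp
          positivity
      have h7 := hA2P.1 A B m _ _ _ h h6
      rw [(hEX2 _ _ _ h7).1] at h5
      exact h5
    · have hacc := hPHE.2.2.2.2 _ {0, 1, 2} _ (by decide) (S3_acc hACG hPHE h hC hU)
      have h2 := hEV.2 (S3_G A B m C U) 0 1 2 (by norm_num) (by norm_num) (by norm_num) rfl rfl rfl
        hacc
      have e0 : ({0, 1, 2} : Finset ℕ) = {1, 0, 2} := by decide
      have hacc' : AccS (S3_G A B m C U) {1, 0, 2} := by rw [← e0]; exact hacc
      have h3 := hEV.2 (S3_G A B m C U) 1 0 2 (by norm_num) (by norm_num) (by norm_num) rfl rfl rfl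
        hacc'
      have e4 : ph3 (S3_G A B m C U 0 0) (S3_G A B m C U 1 1) (S3_G A B m C U 2 2)
        (S3_G A B m C U 0 1) (S3_G A B m C U 0 2) (S3_G A B m C U 1 2) =
          ph3 A B C m (-I) (-I) := rfl
      have e5 : ph3 (S3_G A B m C U 1 1) (S3_G A B m C U 0 0) (S3_G A B m C U 2 2)
        (S3_G A B m C U 1 0) (S3_G A B m C U 1 2) (S3_G A B m C U 0 2) =
          ph3 B A C m (-I) (-I) := rfl
      rw [e4] at h2
      rw [e5, ← e0, h2] at h3
      rw [← h3]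
      exact hf2

end Pool.Agent.MO
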